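import Mathlib

/-!
# A non-periodic 0-additive sequence

The set `inA` of positive integers constructed here satisfies, from `3640` on, the greedy rule
(`m` belongs to the set iff `m` is not a sum of two distinct smaller members), and its gaps are not
eventually periodic.

* Modulo `455 = 7 * 65` there is a set `R` of `45` residues such that, with `T = R ∪ {65, 130, 260}`,
  no sum of two members of `T` lies in `R`, every residue outside `T` is a sum of two members of `R`,
  and `65 = 260 + 260`, `130 = 65 + 65`, `260 = 130 + 130` are the only representations of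
  `65, 130, 260` as sums of two members of `T`.
* All positive integers with residue in `R` are taken.  On the three remaining classes the greedy rule
  becomes a system of equations of the kind of Leiss' language equation over a one-letter alphabet,
  `X₂ = ℕ \ (X₁ + X₁)`, `X₄ = ℕ \ (X₂ + X₂)`, `X₁ = ℕ \ (1 + X₄ + X₄)` (sums of distinct elements),
  whose solution consists of intervals growing by a factor `8`.
-/

namespace Pool.Agent.MP_ed6ba5_nt

/-- starting points of the blocks -/
def S : ℕ → ℕ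
  | 0 => 1
  | k + 1 => 8 * S k - 4

theorem S_pos (k : ℕ) : 1 ≤ S k := by
  induction k with
  | zero => simp [S]
  | succ k ih => simp only [S]; omega

theorem S_succ (k : ℕ) : S (k + 1) + 4 = 8 * S k := by
  have := S_pos k
  simp only [S]; omega

theorem S_lt_succ (k : ℕ) : S k < S (k + 1) := by
  have := S_pos k
  have := S_succ k
  omega

theorem S_strictMono : StrictMono S := strictMono_nat_of_lt_succ S_lt_succ

theorem lt_S (k : ℕ) : k < S k := by
  induction k with
  | zero => simp [S]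
  | succ k ih => have := S_succ k; omega

/-- if `S j < S k` then `8 * S j ≤ S k + 4` -/
theorem S_gap {j k : ℕ} (h : S j < S k) : 8 * S j ≤ S k + 4 := by
  have hjk : j < k := S_strictMono.lt_iff_lt.mp h
  have h1 : S (j + 1) ≤ S k := S_strictMono.monotone hjk
  have := S_succ j
  omega

/-- every positive integer lies in a unique interval `[S k, S (k+1))` -/
theorem exists_block {x : ℕ} (hx : 1 ≤ x) : ∃ k, S k ≤ x ∧ x + 4 < 8 * S k := by
  have hex : ∃ k, x < S (k + 1) := ⟨x, lt_trans (lt_S x) (S_lt_succ x)⟩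
  classical
  obtain ⟨k, hk, hmin⟩ : ∃ k, x < S (k + 1) ∧ ∀ j < k, ¬ x < S (j + 1) :=
    ⟨Nat.find hex, Nat.find_spec hex, fun j hj => Nat.find_min hex hj⟩
  refine ⟨k, ?_, ?_⟩
  · rcases Nat.eq_zero_or_pos k with h0 | h0
    · subst h0; simpa [S] using hx
    · have := hmin (k - 1) (by omega)
      rw [show k - 1 + 1 = k by omega] at this
      omega
  · have := S_succ k
    omega

/-- first set -/
def P1 (x : ℕ) : Prop := x = 0 ∨ ∃ k, 4 * S k ≤ x + 1 ∧ x + 4 ≤ 8 * S k
/-- second set -/
def P2 (x : ℕ) : Prop := x = 0 ∨ ∃ k, 2 * S k ≤ x ∧ x + 2 ≤ 4 * S k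
/-- third set -/
def P4 (x : ℕ) : Prop := x = 0 ∨ ∃ k, S k ≤ x ∧ x + 1 ≤ 2 * S k

theorem pos_of_ge {k : ℕ} (h : 1 < S k) : ∃ j, k = j + 1 := by
  rcases k with _ | j
  · simp [S] at h
  · exact ⟨j, rfl⟩

/-- an integer strictly between `2a` and `2b` is a sum of two distinct members of `[a, b]` -/
theorem pair_sum {a b x : ℕ} (h1 : 2 * a + 1 ≤ x) (h2 : x + 1 ≤ 2 * b) :
    ∃ y z, y < z ∧ a ≤ y ∧ z ≤ b ∧ y + z = x := by
  by_cases h : x ≤ a + b
  · exact ⟨a, x - a, by omega, le_refl _, by omega, by omega⟩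
  · exact ⟨x - b, b, by omega, by omega, le_refl _, by omega⟩

theorem rule2 {x : ℕ} (hx : 8 ≤ x) : P2 x ↔ ¬ ∃ y z, y < z ∧ P1 y ∧ P1 z ∧ y + z = x := by
  constructor
  · rintro (h0 | ⟨k, hk1, hk2⟩) ⟨y, z, hyz, -, hz, hs⟩
    · omega
    · rcases hz with h0 | ⟨j, hj1, hj2⟩
      · omega
      · have h3 := S_gap (j := j) (k := k) (by omega)
        omega
  · intro h
    by_contra hP
    apply h
    obtain ⟨k, hk1, hk2⟩ := exists_block (x := x) (by omega)
    by_cases h1 : x + 1 < 4 * S k
    · -- then `x < 2 * S k`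
      have h2 : x < 2 * S k := by
        by_contra h2
        exact hP (Or.inr ⟨k, by omega, by omega⟩)
      obtain ⟨j, rfl⟩ := pos_of_ge (k := k) (by omega)
      have hj := S_succ j
      by_cases h3 : x + 4 ≤ 8 * S j
      · exact ⟨0, x, by omega, Or.inl rfl, Or.inr ⟨j, by omega, by omega⟩, by omega⟩
      · by_cases h4 : 8 * S j ≤ x + 1
        · obtain ⟨y, z, hyz, hy, hz, hs⟩ := pair_sum (a := 4 * S j - 1) (b := 8 * S j - 4) (x := x)
            (by omega) (by omega)
          exact ⟨y, z, hyz, Or.inr ⟨j, by omega, by omega⟩, Or.inr ⟨j, by omega, by omega⟩, hs⟩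
        · obtain ⟨i, rfl⟩ := pos_of_ge (k := j) (by omega)
          have hi := S_succ i
          exact ⟨S (i + 1), x - S (i + 1), by omega, Or.inr ⟨i, by omega, by omega⟩,
            Or.inr ⟨i + 1, by omega, by omega⟩, by omega⟩
    · exact ⟨0, x, by omega, Or.inl rfl, Or.inr ⟨k, by omega, by omega⟩, by omega⟩

theorem rule4 {x : ℕ} (hx : 8 ≤ x) : P4 x ↔ ¬ ∃ y z, y < z ∧ P2 y ∧ P2 z ∧ y + z = x := by
  constructor
  · rintro (h0 | ⟨k, hk1, hk2⟩) ⟨y, z, hyz, -, hz, hs⟩
    · omega
    · rcases hz with h0 | ⟨j, hj1, hj2⟩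
      · omega
      · have h3 := S_gap (j := j) (k := k) (by omega)
        omega
  · intro h
    by_contra hP
    apply h
    obtain ⟨k, hk1, hk2⟩ := exists_block (x := x) (by omega)
    have h2 : 2 * S k ≤ x := by
      by_contra h2
      exact hP (Or.inr ⟨k, by omega, by omega⟩)
    by_cases h3 : x + 2 ≤ 4 * S k
    · exact ⟨0, x, by omega, Or.inl rfl, Or.inr ⟨k, by omega, by omega⟩, by omega⟩
    · by_cases h4 : 4 * S k + 1 ≤ x
      · obtain ⟨y, z, hyz, hy, hz, hs⟩ := pair_sum (a := 2 * S k) (b := 4 * S k - 2) (x := x)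
          (by omega) (by omega)
        exact ⟨y, z, hyz, Or.inr ⟨k, by omega, by omega⟩, Or.inr ⟨k, by omega, by omega⟩, hs⟩
      · obtain ⟨i, rfl⟩ := pos_of_ge (k := k) (by omega)
        have hi := S_succ i
        exact ⟨4 * S i - 2, x - (4 * S i - 2), by omega, Or.inr ⟨i, by omega, by omega⟩,
          Or.inr ⟨i + 1, by omega, by omega⟩, by omega⟩

theorem rule1 {x : ℕ} (hx : 8 ≤ x) : P1 x ↔ ¬ ∃ y z, y < z ∧ P4 y ∧ P4 z ∧ y + z + 1 = x := by
  constructor
  · rintro (h0 | ⟨k, hk1, hk2⟩) ⟨y, z, hyz, -, hz, hs⟩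
    · omega
    · rcases hz with h0 | ⟨j, hj1, hj2⟩
      · omega
      · have hjk : S j ≤ S k := by
          by_contra hlt
          have h3 := S_gap (j := k) (k := j) (by omega)
          omega
        omega
  · intro h
    by_contra hP
    apply h
    obtain ⟨k, hk1, hk2⟩ := exists_block (x := x) (by omega)
    have h2 : x + 1 < 4 * S k := by
      by_contra h2
      exact hP (Or.inr ⟨k, by omega, by omega⟩)
    obtain ⟨j, rfl⟩ := pos_of_ge (k := k) (by omega)
    have hj := S_succ j
    have hjp := S_pos j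
    have h3 : x ≠ S (j + 1) := by
      intro h3
      exact hP (Or.inr ⟨j, by omega, by omega⟩)
    by_cases h4 : x ≤ 2 * S (j + 1)
    · exact ⟨0, x - 1, by omega, Or.inl rfl, Or.inr ⟨j + 1, by omega, by omega⟩, by omega⟩
    · by_cases h5 : x = 2 * S (j + 1) + 1
      · exact ⟨S j, 2 * S (j + 1) - S j, by omega, Or.inr ⟨j, by omega, by omega⟩,
          Or.inr ⟨j + 1, by omega, by omega⟩, by omega⟩
      · obtain ⟨y, z, hyz, hy, hz, hs⟩ := pair_sum (a := S (j + 1)) (b := 2 * S (j + 1) - 1)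
          (x := x - 1) (by omega) (by omega)
        exact ⟨y, z, hyz, Or.inr ⟨j + 1, by omega, by omega⟩, Or.inr ⟨j + 1, by omega, by omega⟩,
          by omega⟩

/-- there are arbitrarily long gaps in `P1` -/
theorem not_P1_gap {k x : ℕ} (h1 : 8 * S k < x + 4) (h2 : x + 1 < 4 * S (k + 1)) : ¬ P1 x := by
  have hk := S_pos k
  rintro (h0 | ⟨j, hj1, hj2⟩)
  · omega
  · have h3 : S k < S j := by omega
    have h4 := S_strictMono.lt_iff_lt.mp h3
    have h5 : S (k + 1) ≤ S j := S_strictMono.monotone h4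
    omega

/-- the residues modulo `455` which are taken completely -/
def R : List ℕ := [21, 60, 66, 82, 84, 85, 92, 114, 116, 119, 134, 139, 154, 159, 161, 172, 173, 183,
  189, 192, 240, 263, 266, 272, 282, 283, 285, 290, 294, 296, 301, 310, 316, 321, 330, 335, 336, 339,
  340, 341, 363, 371, 373, 389, 434]

/-- all residues that occur -/
def T : List ℕ := 65 :: 130 :: 260 :: R

theorem T_sum : ∀ s ∈ T, ∀ t ∈ T, (s + t) % 455 ∉ R ∧ ((s + t) % 455 = 65 → s = 260 ∧ t = 260) ∧
    ((s + t) % 455 = 130 → s = 65 ∧ t = 65) ∧ ((s + t) % 455 = 260 → s = 130 ∧ t = 130) := by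
  decide +kernel

theorem T_cover : ∀ w < 455, w ∈ T ∨ ∃ r ∈ R, ∃ r' ∈ R, (r + r') % 455 = w := by
  decide +kernel

theorem R_bound : ∀ r ∈ R, 0 < r ∧ r < 455 := by
  decide +kernel

theorem R_special : 65 ∉ R ∧ 130 ∉ R ∧ 260 ∉ R := by
  decide +kernel

/-- the members of the sequence -/
def inA (n : ℕ) : Prop :=
  n % 455 ∈ R ∨ (n % 455 = 65 ∧ P1 (n / 455)) ∨ (n % 455 = 130 ∧ P2 (n / 455)) ∨
    (n % 455 = 260 ∧ P4 (n / 455))

theorem mem_T_of_inA {n : ℕ} (h : inA n) : n % 455 ∈ T := by
  unfold T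
  rcases h with h | ⟨h, -⟩ | ⟨h, -⟩ | ⟨h, -⟩ <;> simp [h]

theorem inA_65 {n : ℕ} (h : n % 455 = 65) : inA n ↔ P1 (n / 455) := by
  unfold inA
  have := R_special.1
  simp [h, this]

theorem inA_130 {n : ℕ} (h : n % 455 = 130) : inA n ↔ P2 (n / 455) := by
  unfold inA
  have := R_special.2.1
  simp [h, this]

theorem inA_260 {n : ℕ} (h : n % 455 = 260) : inA n ↔ P4 (n / 455) := by
  unfold inA
  have := R_special.2.2
  simp [h, this]

theorem not_inA_zero : ¬ inA 0 := by
  intro h
  have h1 := mem_T_of_inA h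
  revert h1
  decide +kernel

/-- the greedy rule from `3640` on -/
theorem greedy {m : ℕ} (hm : 3640 ≤ m) :
    inA m ↔ ¬ ∃ x y, x < y ∧ inA x ∧ inA y ∧ x + y = m := by
  have hT : ∀ x y, inA x → inA y → x + y = m →
      (x % 455 ∈ T ∧ y % 455 ∈ T ∧ (x % 455 + y % 455) % 455 = m % 455) := by
    intro x y hx hy hs
    exact ⟨mem_T_of_inA hx, mem_T_of_inA hy, by omega⟩
  rcases T_cover (m % 455) (Nat.mod_lt _ (by norm_num)) with hw | ⟨r, hr, r', hr', hrr⟩
  · unfold T at hw
    rw [List.mem_cons, List.mem_cons, List.mem_cons] at hw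
    rcases hw with hw | hw | hw | hw
    · -- class 65
      rw [inA_65 hw, rule1 (by omega)]
      refine not_congr ⟨?_, ?_⟩
      · rintro ⟨y, z, hyz, hy, hz, hs⟩
        have e1 : (455 * y + 260) % 455 = 260 := by omega
        have e2 : (455 * y + 260) / 455 = y := by omega
        have e3 : (455 * z + 260) % 455 = 260 := by omega
        have e4 : (455 * z + 260) / 455 = z := by omega
        refine ⟨455 * y + 260, 455 * z + 260, by omega, ?_, ?_, by omega⟩
        · rw [inA_260 e1, e2]; exact hy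
        · rw [inA_260 e3, e4]; exact hz
      · rintro ⟨x, y, hxy, hx, hy, hs⟩
        obtain ⟨h1, h2, h3⟩ := hT x y hx hy hs
        obtain ⟨-, h4, -, -⟩ := T_sum _ h1 _ h2
        obtain ⟨h5, h6⟩ := h4 (by omega)
        rw [inA_260 h5] at hx
        rw [inA_260 h6] at hy
        exact ⟨x / 455, y / 455, by omega, hx, hy, by omega⟩
    · -- class 130
      rw [inA_130 hw, rule2 (by omega)]
      refine not_congr ⟨?_, ?_⟩
      · rintro ⟨y, z, hyz, hy, hz, hs⟩
        have e1 : (455 * y + 65) % 455 = 65 := by omega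
        have e2 : (455 * y + 65) / 455 = y := by omega
        have e3 : (455 * z + 65) % 455 = 65 := by omega
        have e4 : (455 * z + 65) / 455 = z := by omega
        refine ⟨455 * y + 65, 455 * z + 65, by omega, ?_, ?_, by omega⟩
        · rw [inA_65 e1, e2]; exact hy
        · rw [inA_65 e3, e4]; exact hz
      · rintro ⟨x, y, hxy, hx, hy, hs⟩
        obtain ⟨h1, h2, h3⟩ := hT x y hx hy hs
        obtain ⟨-, -, h4, -⟩ := T_sum _ h1 _ h2
        obtain ⟨h5, h6⟩ := h4 (by omega)
        rw [inA_65 h5] at hx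
        rw [inA_65 h6] at hy
        exact ⟨x / 455, y / 455, by omega, hx, hy, by omega⟩
    · -- class 260
      rw [inA_260 hw, rule4 (by omega)]
      refine not_congr ⟨?_, ?_⟩
      · rintro ⟨y, z, hyz, hy, hz, hs⟩
        have e1 : (455 * y + 130) % 455 = 130 := by omega
        have e2 : (455 * y + 130) / 455 = y := by omega
        have e3 : (455 * z + 130) % 455 = 130 := by omega
        have e4 : (455 * z + 130) / 455 = z := by omega
        refine ⟨455 * y + 130, 455 * z + 130, by omega, ?_, ?_, by omega⟩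
        · rw [inA_130 e1, e2]; exact hy
        · rw [inA_130 e3, e4]; exact hz
      · rintro ⟨x, y, hxy, hx, hy, hs⟩
        obtain ⟨h1, h2, h3⟩ := hT x y hx hy hs
        obtain ⟨-, -, -, h4⟩ := T_sum _ h1 _ h2
        obtain ⟨h5, h6⟩ := h4 (by omega)
        rw [inA_130 h5] at hx
        rw [inA_130 h6] at hy
        exact ⟨x / 455, y / 455, by omega, hx, hy, by omega⟩
    · -- full classes
      refine ⟨fun _ => ?_, fun _ => Or.inl hw⟩
      rintro ⟨x, y, hxy, hx, hy, hs⟩
      obtain ⟨h1, h2, h3⟩ := hT x y hx hy hs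
      obtain ⟨h4, -⟩ := T_sum _ h1 _ h2
      rw [h3] at h4
      exact h4 hw
  · -- excluded classes or again `m % 455 ∈ T`
    have hb := R_bound r hr
    have hb' := R_bound r' hr'
    have e1 : r % 455 = r := by omega
    have e2 : (m - r) % 455 = r' := by omega
    have hsum : ∃ x y, x < y ∧ inA x ∧ inA y ∧ x + y = m := by
      refine ⟨r, m - r, by omega, Or.inl ?_, Or.inl ?_, by omega⟩
      · rw [e1]; exact hr
      · rw [e2]; exact hr'
    refine ⟨fun h => ?_, fun h => absurd hsum h⟩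
    exfalso
    have hmT := mem_T_of_inA h
    unfold T at hmT
    rw [List.mem_cons, List.mem_cons, List.mem_cons] at hmT
    have hrT : r ∈ T := by unfold T; simp [hr]
    have hrT' : r' ∈ T := by unfold T; simp [hr']
    obtain ⟨h1, h2, h3, h4⟩ := T_sum r hrT r' hrT'
    rw [hrr] at h1 h2 h3 h4
    have hs := R_special
    rcases hmT with hmT | hmT | hmT | hmT
    · exact hs.2.2 ((h2 hmT).1 ▸ hr)
    · exact hs.1 ((h3 hmT).1 ▸ hr)
    · exact hs.2.1 ((h4 hmT).1 ▸ hr)
    · exact h1 hmT

theorem infinite_inA : {n | inA n}.Infinite := by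
  rw [Set.infinite_iff_exists_gt]
  intro n
  refine ⟨455 * n + 476, ?_, by omega⟩
  left
  have : (455 * n + 476) % 455 = 21 := by omega
  rw [this]
  simp [R]

end Pool.Agent.MP_ed6ba5_nt
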